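import Pool.Agent.H308R3.DM.Pre
import Pool.Agent.H308R3.DM.Final

set_option autoImplicit false

/-!
# MP_fb3dca_pr, Q1: for large `β` the limiting shape is the diamond

All definitions (`step`, `position`, `visited`, `Adj`, `innerBoundary`, `expect`, `gibbs`, `rescaled`,
`dHaus`, `IsLimitingShape`, `diamond`) are in `Pool.Agent.H308R3.DM.Orig`.
-/

namespace Pool.Agent.Results.MP_fb3dca_pr.LargeBetaDiamond

open Filter Topology
open scoped ENNReal
open Pool.Agent.H308R3.DM.Orig

/-- (1) every choice `S β` of limiting shapes (for all large `β`) converges to the diamond of unit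
diameter as `β → ∞`; (2) with no existence hypothesis: for every `ε > 0` there is `β0` such that for
all `β ≥ β0` the rescaled range is within `ε` of a translate of the diamond with `μ_t`-probability
tending to one. -/
theorem result :
    (∀ S : ℝ → Set ℂ, (∀ᶠ β in atTop, IsLimitingShape β (S β)) →
      Tendsto (fun β => dHaus (S β) diamond) atTop (𝓝 0)) ∧
    (∀ ε : ℝ≥0∞, 0 < ε → ∃ β0 : ℝ, 0 < β0 ∧ ∀ β : ℝ, β0 ≤ β →
      Tendsto (fun t => gibbs β t {G | ε < dHaus (rescaled G) diamond}) atTop (𝓝 0)) :=
  Pool.Agent.H308R3.DM.Final.final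

end Pool.Agent.Results.MP_fb3dca_pr.LargeBetaDiamond
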